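import Pool.Agent.Q65.SH.WU
import Pool.Agent.Q290.SG.SM
import Pool.Agent.Q285.SG.PW
import Pool.Agent.Q299.EX.Cnt

/-!
# Project SH, job GB: many classes of `Kˣ` modulo `Qg` and `p`-th powers
-/

set_option autoImplicit false
set_option linter.unusedSectionVars false

namespace Pool.Agent.Q65.SH

open NumberField IsDedekindDomain Module Pool.Agent.Y18.LC Pool.Agent.Q5.SG Pool.Agent.Q5.SH
open Pool.Agent.Q92.AR (Dv prin Pr SupF prin_mul prin_one prin_inv prin_div prinHom)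
open Pool.Agent.Q290.SG (PI VV mem_PI norm_emb_p p_mem_PI norm_le_one norm_eq_one val_lt_one
  val_le_one val_le_p exists_exp)
open Pool.Agent.W289.SL (norm_emb_le)

theorem cg1 {G : Type} [CommGroup G] (a b c x y : G) :
    a / b = (x / y) * ((y / (c * b)) / (x / (c * a))) := by
  apply Additive.ofMul.injective
  simp only [ofMul_mul, ofMul_div]
  abel

theorem cg2 {G : Type} [CommGroup G] (b q d : G) : b = (q * b * d) * q⁻¹ * d⁻¹ := by
  apply Additive.ofMul.injective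
  simp only [ofMul_mul, ofMul_inv]
  abel

theorem cg3 {G : Type} [CommGroup G] (a b x y : G) :
    a / b = (x / y) * ((y / b) / (x / a)) := by
  apply Additive.ofMul.injective
  simp only [ofMul_mul, ofMul_div]
  abel

section
variable {p : ℕ} [Fact p.Prime] {K : Type} [Field K] [NumberField K]

theorem PSet_eq (S : Set (K →+* ℂ_[p])) : PSet S = VV '' S := by
  ext v
  constructor
  · rintro ⟨_, σ, hσ, h⟩
    refine ⟨σ, hσ, HeightOneSpectrum.ext ?_⟩
    ext a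
    exact (h a).symm
  · rintro ⟨σ, hσ, rfl⟩
    exact ⟨p_mem_PI σ, σ, hσ, fun a => Iff.rfl⟩

theorem PSet_finite (S : Set (K →+* ℂ_[p])) : (PSet S).Finite := by
  rw [PSet_eq]
  exact (Set.toFinite S).image _

theorem val_p (hun : Unram K p) {v : HeightOneSpectrum (𝓞 K)} (hv : (p : 𝓞 K) ∈ v.asIdeal) :
    v.valuation K (p : K) = WithZero.exp (-1 : ℤ) := by
  have h1 : v.valuation K (p : K) < 1 := by
    have h2 := (v.valuation_lt_one_iff_mem (K := K) (p : 𝓞 K)).2 hv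
    simpa using h2
  obtain ⟨π, hπ⟩ := v.valuation_exists_uniformizer K
  have h2 := val_le_p hun v (x := π) (by
    rw [hπ, ← WithZero.exp_zero, WithZero.exp_lt_exp]
    norm_num)
  rw [hπ] at h2
  have hp0 : (p : K) ≠ 0 := Nat.cast_ne_zero.2 (Fact.out : p.Prime).ne_zero
  obtain ⟨k, hk⟩ := exists_exp (v := v) hp0
  rw [hk] at h1 h2 ⊢
  rw [← WithZero.exp_zero, WithZero.exp_lt_exp] at h1
  rw [WithZero.exp_le_exp] at h2
  congr 1
  omega

/-- valuation-close implies norm-close -/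
theorem close_of_val (hun : Unram K p) (σ : K →+* ℂ_[p]) {z : K}
    (h : (VV σ).valuation K (z - 1) ≤ WithZero.exp (-2 : ℤ)) : ‖σ z - 1‖ ≤ ((p : ℝ)⁻¹) ^ 2 := by
  have hp0 : (p : K) ≠ 0 := Nat.cast_ne_zero.2 (Fact.out : p.Prime).ne_zero
  have h1 : (VV σ).valuation K ((z - 1) / (p : K) ^ 2) ≤ 1 := by
    rw [map_div₀, map_pow, val_p hun (v := VV σ) (p_mem_PI σ), ← WithZero.exp_nsmul]
    refine div_le_one_of_le₀ (h.trans (le_of_eq ?_)) zero_le
    congr 1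
  have h2 := norm_le_one σ h1
  rw [map_div₀, norm_div, map_pow, norm_pow, norm_emb_p, div_le_one (by
    have := (Fact.out : p.Prime).pos
    positivity), map_sub, map_one] at h2
  exact h2

theorem mem_CL2_one (σ : K →+* ℂ_[p]) {x : Kˣ} :
    x ∈ CL2 {σ} ↔ ‖σ (x : K) - 1‖ ≤ ((p : ℝ)⁻¹) ^ 2 := by
  rw [mem_CL2]
  constructor
  · intro h
    exact h σ (by rw [Set.mem_singleton_iff]; rfl)
  · intro h τ hτ
    have h1 : τ = σ := by
      rw [Set.mem_singleton_iff] at hτ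
      exact hτ
    rw [h1]
    exact h

theorem CL2_le (S : Set (K →+* ℂ_[p])) {x : Kˣ} (h : ∀ σ ∈ S, x ∈ CL2 {σ}) : x ∈ CL2 S := by
  rw [mem_CL2]
  intro τ hτ
  exact (mem_CL2_one τ).1 (h τ hτ)

theorem CL2_one_of (S : Set (K →+* ℂ_[p])) {x : Kˣ} (h : x ∈ CL2 S) {σ : K →+* ℂ_[p]} (hσ : σ ∈ S) :
    x ∈ CL2 {σ} := by
  rw [mem_CL2_one]
  exact (mem_CL2.1 h) σ hσ

theorem OneAt_le_Loc (T : Finset (HeightOneSpectrum (𝓞 K))) (χ : Dv K →+ Additive ℂˣ)
    (v : HeightOneSpectrum (𝓞 K)) : OneAt v ≤ Loc T χ v := by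
  intro b hb
  rw [mem_Loc]
  refine ⟨1, ?_, fun w _ _ => (OneAt w).one_mem, by rw [prin_one, map_zero]⟩
  rw [one_div]
  exact (OneAt v).inv_mem hb

theorem lt_one_of_le_exp {v : HeightOneSpectrum (𝓞 K)} {z : K} {n : ℕ} (hn : 1 ≤ n)
    (h : v.valuation K z ≤ WithZero.exp (-(n : ℤ))) : v.valuation K z < 1 := by
  refine lt_of_le_of_lt h ?_
  rw [← WithZero.exp_zero, WithZero.exp_lt_exp]
  omega

/-- approximation: `e / k ≡ 1` at `v` and `e ≡ 1` at the other primes of `T` -/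
theorem exists_split (T : Finset (HeightOneSpectrum (𝓞 K))) (v : HeightOneSpectrum (𝓞 K)) (k : Kˣ) :
    ∃ e : Kˣ, e / k ∈ OneAt v ∧ ∀ w ∈ T, w ≠ v → e ∈ OneAt w := by
  classical
  obtain ⟨z, hz⟩ := Pool.Agent.Q299.EX.approx (F := K) (P := ((insert v T : Finset _) : Set _))
    (Finset.finite_toSet _) (fun w => if w = v then k else 1) (fun _ => 1) (fun _ => le_rfl)
  refine ⟨z, ?_, fun w hw hwv => ?_⟩
  · have h := hz v (by rw [Finset.mem_coe]; exact Finset.mem_insert_self _ _)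
    rw [if_pos rfl] at h
    rw [mem_OneAt, Units.val_div_eq_div_val]
    exact lt_one_of_le_exp le_rfl h
  · have h := hz w (by rw [Finset.mem_coe]; exact Finset.mem_insert_of_mem hw)
    rw [if_neg hwv, Units.val_one, div_one] at h
    rw [mem_OneAt]
    exact lt_one_of_le_exp le_rfl h

theorem pow_mem_Loc {T : Finset (HeightOneSpectrum (𝓞 K))} {χ : Dv K →+ Additive ℂˣ} {q : ℕ}
    (hχ : IsX T q χ) (v : HeightOneSpectrum (𝓞 K)) (k : Kˣ) : k ^ q ∈ Loc T χ v := by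
  obtain ⟨e, h1, h2⟩ := exists_split T v k
  rw [mem_Loc]
  refine ⟨e ^ q, ?_, fun w hw hwv => (OneAt w).pow_mem (h2 w hw hwv) q, ?_⟩
  · rw [← div_pow]
    exact (OneAt v).pow_mem h1 q
  · rw [prin_pow, map_nsmul]
    exact hχ.tor _

/-- the local component detects the elements which are `≡ 1` at the other primes -/
theorem Loc_zero {T : Finset (HeightOneSpectrum (𝓞 K))} {χ : Dv K →+ Additive ℂˣ} {q : ℕ}
    (hχ : IsX T q χ) {v : HeightOneSpectrum (𝓞 K)} {u : Kˣ}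
    (hu : ∀ w ∈ T, w ≠ v → u ∈ OneAt w) (h : u ∈ Loc T χ v) : χ (prin u) = 0 := by
  rw [mem_Loc] at h
  obtain ⟨e, h1, h2, h3⟩ := h
  have h4 : χ (prin (e / u)) = 0 := by
    apply hχ.ray
    intro w hw
    by_cases hwv : w = v
    · rw [hwv]
      exact h1
    · exact (OneAt w).div_mem (h2 w hw hwv) (hu w hw hwv)
  rw [prin_div, map_sub, h3, zero_sub, neg_eq_zero] at h4
  exact h4

theorem one_add_ne (β : 𝓞 K) : (1 : K) + (p : K) * (β : K) ≠ 0 := by
  intro h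
  have h1 : (1 : 𝓞 K) + (p : 𝓞 K) * β = 0 := by
    apply RingOfIntegers.ext
    rw [RingOfIntegers.coe_eq_algebraMap, RingOfIntegers.coe_eq_algebraMap, map_add, map_mul,
      map_one, map_natCast, map_zero]
    exact h
  obtain ⟨σ⟩ : Nonempty (K →+* ℂ_[p]) := inferInstance
  have h2 : (1 : 𝓞 K) ∈ PI σ := by
    have h3 : (1 : 𝓞 K) = (p : 𝓞 K) * (-β) := by
      linear_combination h1
    rw [h3]
    exact Ideal.mul_mem_right _ _ (p_mem_PI σ)
  exact (Pool.Agent.Q290.SG.PI_prime σ).ne_top ((Ideal.eq_top_iff_one _).2 h2)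

/-- the unit `1 + p β` -/
noncomputable def gU (p : ℕ) [Fact p.Prime] (β : 𝓞 K) : Kˣ := Units.mk0 _ (one_add_ne (p := p) β)

theorem gU_val (β : 𝓞 K) : ((gU p β : Kˣ) : K) = 1 + (p : K) * (β : K) := rfl

/-- the unit `p` -/
noncomputable def pU (p : ℕ) [Fact p.Prime] (K : Type) [Field K] [NumberField K] : Kˣ :=
  Units.mk0 (p : K) (Nat.cast_ne_zero.2 (Fact.out : p.Prime).ne_zero)

theorem norm_gU (σ : K →+* ℂ_[p]) (β : 𝓞 K) : ‖σ ((gU p β : Kˣ) : K) - 1‖ ≤ (p : ℝ)⁻¹ := by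
  rw [gU_val, map_add, map_one, map_mul, add_sub_cancel_left, norm_mul, norm_emb_p]
  exact mul_le_of_le_one_right (by positivity) (norm_emb_le σ β)

theorem val_gU {v : HeightOneSpectrum (𝓞 K)} (hv : (p : 𝓞 K) ∈ v.asIdeal) (β : 𝓞 K) :
    v.valuation K ((gU p β : Kˣ) : K) = 1 := by
  apply val_eq_one_of_sub
  rw [gU_val, add_sub_cancel_left]
  have h1 : (p : 𝓞 K) * β ∈ v.asIdeal := Ideal.mul_mem_right _ _ hv
  have h2 := (v.valuation_lt_one_iff_mem (K := K) ((p : 𝓞 K) * β)).2 h1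
  simpa using h2

theorem gU_one_at (σ : K →+* ℂ_[p]) (β : 𝓞 K) : gU p β ∈ OneAt (VV σ) := by
  rw [mem_OneAt]
  apply val_lt_one σ
  rw [map_sub, map_one]
  exact lt_of_le_of_lt (norm_gU σ β) Pool.Agent.Q285.SG.pinv_lt

theorem CL2_one_at {σ : K →+* ℂ_[p]} {x : Kˣ} (h : x ∈ CL2 {σ}) : x ∈ OneAt (VV σ) := by
  rw [mem_CL2_one] at h
  rw [mem_OneAt]
  apply val_lt_one σ
  rw [map_sub, map_one]
  refine lt_of_le_of_lt h ?_
  exact pow_lt_one₀ (by positivity) Pool.Agent.Q285.SG.pinv_lt (by norm_num)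

/-- if `k ^ p ≡ 1` above `σ` then `k ^ p` is `p ^ 2`-close to `1` -/
theorem pow_close (hp2 : p ≠ 2) (hun : Unram K p) {σ : K →+* ℂ_[p]} {k : Kˣ}
    (h : k ^ p ∈ OneAt (VV σ)) : k ^ p ∈ CL2 {σ} := by
  have hv : (VV σ).valuation K (k : K) = 1 := by
    have h1 := val_eq_one_of_sub (mem_OneAt.1 h)
    rw [Units.val_pow_eq_pow_val, map_pow] at h1
    exact (pow_eq_one_iff_of_nonneg zero_le (Fact.out : p.Prime).ne_zero).1 h1
  have hn : ‖σ (k : K)‖ = 1 := norm_eq_one σ hv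
  have h2 : ‖σ (k : K) ^ p ^ 1 - 1‖ < 1 := by
    have h3 := Pool.Agent.Q290.SG.norm_lt_one σ (mem_OneAt.1 h)
    rw [map_sub, map_one, Units.val_pow_eq_pow_val, map_pow] at h3
    rw [pow_one]
    exact h3
  have h3 := Pool.Agent.Q285.SG.rt p (σ (k : K)) hn.le 1 h2
  have h4 : ‖σ ((k : K) - 1)‖ ≤ (p : ℝ)⁻¹ := Pool.Agent.Q290.SG.sm p K hun σ _ (by
    rw [map_sub, map_one]
    exact h3)
  rw [map_sub, map_one] at h4
  have h5 := Pool.Agent.Q285.SG.pw p hp2 (σ (k : K)) h4 1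
  rw [mem_CL2_one, Units.val_pow_eq_pow_val, map_pow]
  rw [pow_one, pow_one] at h5
  rw [h5, pow_two]
  exact mul_le_mul_of_nonneg_left h4 (by positivity)

/-- the classes `β` -/
theorem beta_close {σ : K →+* ℂ_[p]} {β β' : 𝓞 K} (h : gU p β / gU p β' ∈ CL2 {σ}) :
    ‖σ ((β - β' : 𝓞 K) : K)‖ < 1 := by
  rw [mem_CL2_one, Units.val_div_eq_div_val, map_div₀] at h
  have h1 : ‖σ ((gU p β' : Kˣ) : K)‖ = 1 :=
    norm_eq_one σ (val_eq_one_of_sub (mem_OneAt.1 (gU_one_at σ β')))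
  have h0 : σ ((gU p β' : Kˣ) : K) ≠ 0 := by
    intro h2
    rw [h2, norm_zero] at h1
    exact zero_ne_one h1
  have h2 : σ ((gU p β : Kˣ) : K) / σ ((gU p β' : Kˣ) : K) - 1 =
      (σ ((gU p β : Kˣ) : K) - σ ((gU p β' : Kˣ) : K)) / σ ((gU p β' : Kˣ) : K) := by
    rw [sub_div, div_self h0]
  rw [h2, norm_div, h1, div_one, gU_val, gU_val, map_add, map_add, add_sub_add_left_eq_sub, map_mul,
    map_mul, ← mul_sub, norm_mul, norm_emb_p, pow_two] at h
  have hp0 := Pool.Agent.Q285.SG.pinv_pos (p := p)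
  have h3 := le_of_mul_le_mul_left h hp0
  have h4 : σ ((β - β' : 𝓞 K) : K) = σ (β : K) - σ (β' : K) := by
    rw [← map_sub]
    rfl
  rw [h4]
  exact lt_of_le_of_lt h3 Pool.Agent.Q285.SG.pinv_lt

theorem gb : Pool.Agent.Q5.SH.S_GB := by
  classical
  intro p _ hp2 K _ _ hun S hS I hI T χ hχ hram hTp
  have hfin := PSet_finite (K := K) S
  refine ⟨hfin, ?_⟩
  have hpp : p.Prime := Fact.out
  let P : Finset (HeightOneSpectrum (𝓞 K)) := hfin.toFinset
  have hPmem : ∀ v, v ∈ P ↔ v ∈ PSet S := fun v => hfin.mem_toFinset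
  have hVP : ∀ σ ∈ S, VV σ ∈ P := fun σ hσ => by
    rw [hPmem, PSet_eq]
    exact ⟨σ, hσ, rfl⟩
  have hPp : ∀ v ∈ P, (p : 𝓞 K) ∈ v.asIdeal := fun v hv => ((hPmem v).1 hv).1
  have hI0 : I ≠ ⊥ := by
    intro h
    have h1 : (p : 𝓞 K) ∈ I := by
      rw [hI]
      intro σ _
      exact p_mem_PI σ
    rw [h, Ideal.mem_bot] at h1
    exact (Nat.cast_ne_zero.2 hpp.ne_zero) h1
  have hfq : Finite (𝓞 K ⧸ I) := Ideal.finiteQuotientOfFreeOfNeBot I hI0
  have := Fintype.ofFinite (𝓞 K ⧸ I)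
  have hram' : ∀ v, ∃ u : Kˣ, v ∈ T → u ∈ UnitAt v ∧ (∀ w ∈ T, w ≠ v → u ∈ OneAt w) ∧
      χ (prin u) ≠ 0 := by
    intro v
    by_cases hv : v ∈ T
    · obtain ⟨u, h1, h2, h3⟩ := hram v hv
      refine ⟨u, fun _ => ⟨h1, h2, ?_⟩⟩
      rw [Nat.sub_self, pow_zero, one_smul] at h3
      exact h3
    · exact ⟨1, fun h => absurd h hv⟩
  choose u hu using hram'
  let ι : Type := (P → Fin p) × (𝓞 K ⧸ I) × (T → Fin p)
  let y : ι → HeightOneSpectrum (𝓞 K) → Kˣ := fun i v =>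
    if h : v ∈ P then pU p K ^ (i.1 ⟨v, h⟩ : ℕ) * gU p (Quotient.out i.2.1)
    else if h' : v ∈ T then u v ^ (i.2.2 ⟨v, h'⟩ : ℕ) else 1
  have hap : ∀ i : ι, ∃ z : Kˣ, ∀ v ∈ ((P ∪ T : Finset _) : Set (HeightOneSpectrum (𝓞 K))),
      v.valuation K ((z : K) / (y i v : K) - 1) ≤ WithZero.exp (-(2 : ℤ)) := by
    intro i
    obtain ⟨z, hz⟩ := Pool.Agent.Q299.EX.approx (F := K)
      (P := ((P ∪ T : Finset _) : Set (HeightOneSpectrum (𝓞 K)))) (Finset.finite_toSet _) (y i)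
      (fun _ => 2) (fun _ => by norm_num)
    exact ⟨z, fun v hv => hz v hv⟩
  choose F hF using hap
  have hFP : ∀ (i : ι) (v : HeightOneSpectrum (𝓞 K)) (hv : v ∈ P),
      v.valuation K ((F i / (pU p K ^ (i.1 ⟨v, hv⟩ : ℕ) * gU p (Quotient.out i.2.1)) : Kˣ) - 1 : K) ≤
        WithZero.exp (-(2 : ℤ)) := by
    intro i v hv
    have h1 := hF i v (by rw [Finset.mem_coe]; exact Finset.mem_union_left _ hv)
    have h2 : y i v = pU p K ^ (i.1 ⟨v, hv⟩ : ℕ) * gU p (Quotient.out i.2.1) := dif_pos hv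
    rw [h2] at h1
    rw [Units.val_div_eq_div_val]
    exact h1
  have hFT : ∀ (i : ι) (v : HeightOneSpectrum (𝓞 K)) (hv : v ∈ T),
      F i / u v ^ (i.2.2 ⟨v, hv⟩ : ℕ) ∈ OneAt v := by
    intro i v hv
    have h1 := hF i v (by rw [Finset.mem_coe]; exact Finset.mem_union_right _ hv)
    have h2 : y i v = u v ^ (i.2.2 ⟨v, hv⟩ : ℕ) := by
      have h3 : v ∉ P := fun h => hTp v hv (hPp v h)
      show (if h : v ∈ P then _ else _) = _
      rw [dif_neg h3, dif_pos hv]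
    rw [h2] at h1
    rw [mem_OneAt, Units.val_div_eq_div_val]
    exact lt_one_of_le_exp (n := 2) (by norm_num) h1
  have sep : ∀ i j : ι, F i / F j ∈ Qg S T χ ⊔ PW K p → i = j := by
    intro i j hij
    obtain ⟨q, hq, _, ⟨k, rfl⟩, hqk⟩ := Subgroup.mem_sup.1 hij
    replace hqk : q * k ^ p = F i / F j := hqk
    rw [mem_Qg] at hq
    obtain ⟨hq1, hq2⟩ := hq
    -- step 1
    have ha : ∀ (v : HeightOneSpectrum (𝓞 K)) (hv : v ∈ P), i.1 ⟨v, hv⟩ = j.1 ⟨v, hv⟩ := by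
      intro v hv
      have hvS := (hPmem v).1 hv
      rw [PSet_eq] at hvS
      obtain ⟨σ, hσ, hσv⟩ := hvS
      have hqv : v.valuation K (q : K) = 1 := by
        rw [← hσv]
        exact val_eq_one_of_sub (mem_OneAt.1 (CL2_one_at (CL2_one_of S (mem_CL2.2 hq1) hσ)))
      have hFv : ∀ i : ι, v.valuation K (F i : K) = WithZero.exp (-((i.1 ⟨v, hv⟩ : ℕ) : ℤ)) := by
        intro i
        have h1 := val_eq_one_of_sub (lt_one_of_le_exp (n := 2) (by norm_num) (hFP i v hv))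
        rw [Units.val_div_eq_div_val, map_div₀, Units.val_mul, map_mul, Units.val_pow_eq_pow_val,
          map_pow, val_gU (hPp v hv), mul_one] at h1
        have h2 : v.valuation K ((pU p K : Kˣ) : K) = WithZero.exp (-1 : ℤ) := val_p hun (hPp v hv)
        rw [h2, ← WithZero.exp_nsmul, div_eq_one_iff_eq WithZero.exp_ne_zero] at h1
        rw [h1]
        congr 1
        simp
      obtain ⟨m, hm⟩ := exists_exp (v := v) k.ne_zero
      have h3 := congrArg (fun t : Kˣ => v.valuation K (t : K)) hqk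
      simp only [Units.val_mul, Units.val_pow_eq_pow_val, Units.val_div_eq_div_val, map_mul, map_pow,
        map_div₀] at h3
      rw [hqv, one_mul, hm, hFv i, hFv j, ← WithZero.exp_nsmul, ← WithZero.exp_sub,
        WithZero.exp_inj] at h3
      rw [nsmul_eq_mul] at h3
      have h4 : (p : ℤ) ∣ ((j.1 ⟨v, hv⟩ : ℕ) : ℤ) - ((i.1 ⟨v, hv⟩ : ℕ) : ℤ) :=
        ⟨m, by rw [h3]; ring⟩
      apply Fin.ext
      have h5 := (i.1 ⟨v, hv⟩).2
      have h6 := (j.1 ⟨v, hv⟩).2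
      have h7 := Int.eq_zero_of_abs_lt_dvd h4 (by rw [abs_lt]; constructor <;> omega)
      omega
    -- step 2
    have hb : i.2.1 = j.2.1 := by
      rw [← Ideal.Quotient.mk_out i.2.1, ← Ideal.Quotient.mk_out j.2.1, Ideal.Quotient.eq, hI]
      intro σ hσ
      apply beta_close
      have hv := hVP σ hσ
      have hd : ∀ i : ι, F i / (pU p K ^ (i.1 ⟨VV σ, hv⟩ : ℕ) * gU p (Quotient.out i.2.1)) ∈
          CL2 {σ} := by
        intro i
        rw [mem_CL2_one]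
        exact close_of_val hun σ (hFP i (VV σ) hv)
      have hqσ : q ∈ CL2 {σ} := CL2_one_of S (mem_CL2.2 hq1) hσ
      have h1 : gU p (Quotient.out i.2.1) / gU p (Quotient.out j.2.1) = q * k ^ p *
          ((F j / (pU p K ^ (j.1 ⟨VV σ, hv⟩ : ℕ) * gU p (Quotient.out j.2.1))) /
            (F i / (pU p K ^ (i.1 ⟨VV σ, hv⟩ : ℕ) * gU p (Quotient.out i.2.1)))) := by
        rw [hqk, ha _ hv]
        exact cg1 _ _ _ _ _
      have h2 : k ^ p = (gU p (Quotient.out i.2.1) / gU p (Quotient.out j.2.1)) * q⁻¹ *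
          ((F j / (pU p K ^ (j.1 ⟨VV σ, hv⟩ : ℕ) * gU p (Quotient.out j.2.1))) /
            (F i / (pU p K ^ (i.1 ⟨VV σ, hv⟩ : ℕ) * gU p (Quotient.out i.2.1))))⁻¹ := by
        rw [h1]
        exact cg2 _ _ _
      have h3 : k ^ p ∈ OneAt (VV σ) := by
        rw [h2]
        refine mul_mem (mul_mem (div_mem (gU_one_at σ _) (gU_one_at σ _))
          (inv_mem (CL2_one_at hqσ))) (inv_mem ?_)
        exact div_mem (CL2_one_at (hd j)) (CL2_one_at (hd i))
      rw [h1]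
      exact mul_mem (mul_mem hqσ (pow_close hp2 hun h3)) (div_mem (hd j) (hd i))
    -- step 3
    have hc : ∀ (v : HeightOneSpectrum (𝓞 K)) (hv : v ∈ T), i.2.2 ⟨v, hv⟩ = j.2.2 ⟨v, hv⟩ := by
      intro v hv
      obtain ⟨-, hu2, hu3⟩ := hu v hv
      have h1 : u v ^ (i.2.2 ⟨v, hv⟩ : ℕ) / u v ^ (j.2.2 ⟨v, hv⟩ : ℕ) ∈ Loc T χ v := by
        have h2 : u v ^ (i.2.2 ⟨v, hv⟩ : ℕ) / u v ^ (j.2.2 ⟨v, hv⟩ : ℕ) = q * k ^ p *
            ((F j / u v ^ (j.2.2 ⟨v, hv⟩ : ℕ)) / (F i / u v ^ (i.2.2 ⟨v, hv⟩ : ℕ))) := by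
          rw [hqk]
          exact cg3 _ _ _ _
        rw [h2]
        refine mul_mem (mul_mem (hq2 v hv) (pow_mem_Loc hχ v k)) ?_
        exact OneAt_le_Loc T χ v (div_mem (hFT j v hv) (hFT i v hv))
      have h2 := Loc_zero hχ (u := u v ^ (i.2.2 ⟨v, hv⟩ : ℕ) / u v ^ (j.2.2 ⟨v, hv⟩ : ℕ))
        (fun w hw hwv => div_mem (pow_mem (hu2 w hw hwv) _) (pow_mem (hu2 w hw hwv) _)) h1
      rw [prin_div, prin_pow, prin_pow, map_sub, map_nsmul, map_nsmul, ← natCast_zsmul,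
        ← natCast_zsmul, ← sub_smul] at h2
      have h3 : addOrderOf (χ (prin (u v))) = p := addOrderOf_eq_prime (hχ.tor _) hu3
      have h4 := addOrderOf_dvd_iff_zsmul_eq_zero.2 h2
      rw [h3] at h4
      apply Fin.ext
      have h5 := (i.2.2 ⟨v, hv⟩).2
      have h6 := (j.2.2 ⟨v, hv⟩).2
      have h7 := Int.eq_zero_of_abs_lt_dvd h4 (by rw [abs_lt]; constructor <;> omega)
      omega
    refine Prod.ext (funext fun v => ha v.1 v.2) (Prod.ext hb (funext fun v => hc v.1 v.2))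
  have hinj : Function.Injective F := by
    intro i j hij
    apply sep
    rw [hij, div_self']
    exact one_mem _
  refine ⟨Finset.univ.image F, ?_, ?_⟩
  · rw [Finset.card_image_of_injective _ hinj, Finset.card_univ]
    have h1 : Fintype.card ι = p ^ P.card * (Fintype.card (𝓞 K ⧸ I) * p ^ T.card) := by
      show Fintype.card ((P → Fin p) × (𝓞 K ⧸ I) × (T → Fin p)) = _
      rw [Fintype.card_prod, Fintype.card_prod, Fintype.card_fun, Fintype.card_fun, Fintype.card_fin,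
        Fintype.card_coe, Fintype.card_coe]
    rw [h1, Ideal.absNorm_apply, Submodule.cardQuot_apply, Nat.card_eq_fintype_card,
      Set.ncard_eq_toFinset_card _ hfin, pow_add]
    apply le_of_eq
    ring
  · intro x hx x' hx' h
    obtain ⟨i, -, rfl⟩ := Finset.mem_image.1 hx
    obtain ⟨j, -, rfl⟩ := Finset.mem_image.1 hx'
    rw [sep i j h]

end

end Pool.Agent.Q65.SH
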