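import Pool.Agent.Q65.SH.WU

/-!
# Project SH, job KS: a field containing the `n`-th roots of the elements of `BT T n`
-/

set_option autoImplicit false
set_option linter.unusedSectionVars false

namespace Pool.Agent.Q65.SH

open NumberField IsDedekindDomain Module Pool.Agent.Y18.LC Pool.Agent.Q5.SG Pool.Agent.Q5.SH
open Pool.Agent.Q92.AR (Dv prin Pr SupF prin_mul prin_one prin_inv prin_div prinHom)

variable {K : Type} [Field K] [NumberField K]

/-- an element of `BT W n` is a `W`-unit times an `n`-th power -/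
theorem BT_dec {W : Finset (HeightOneSpectrum (𝓞 K))} {n : ℕ}
    (hW : ∀ D : Dv K, ∃ x : Kˣ, D - prin x ∈ SupF K (W : Set (HeightOneSpectrum (𝓞 K))))
    {b : Kˣ} (hb : b ∈ BT W n) :
    ∃ w k : Kˣ, (∀ v, v ∉ W → prin w v = 0) ∧ b = w * k ^ n := by
  classical
  rw [mem_BT] at hb
  let D : Dv K := Finsupp.onFinset (prin b).support (fun v => if v ∈ W then 0 else prin b v / n) (by
    intro v hv
    rw [Finsupp.mem_support_iff]
    intro h0
    apply hv
    rw [h0]
    simp)
  have hD : ∀ v, v ∉ W → (n : ℤ) * D v = prin b v := by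
    intro v hv
    have h1 : D v = prin b v / n := by
      show (if v ∈ W then 0 else prin b v / n) = _
      rw [if_neg hv]
    rw [h1]
    exact Int.mul_ediv_cancel' (hb v hv)
  obtain ⟨k, hk⟩ := hW D
  refine ⟨b / k ^ n, k, ?_, by rw [div_mul_cancel]⟩
  intro v hv
  have h2 : (D - prin k) v = 0 := hk v (by rwa [Finset.mem_coe])
  rw [Finsupp.sub_apply] at h2
  rw [prin_div, prin_pow, Finsupp.sub_apply, Finsupp.smul_apply, ← hD v hv, nsmul_eq_mul]
  rw [← mul_sub]
  have h3 : ((n : ℕ) : ℤ) * (D v - prin k v) = 0 := by rw [h2, mul_zero]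
  exact h3

theorem ks : Pool.Agent.Q5.SH.S_KS := by
  classical
  intro K _ _ T n hn
  have hX : ∃ X : Finset Kˣ, ∀ b ∈ BT T n, ∃ x ∈ X, x ∈ BT T n ∧ ∃ k : Kˣ, b = x * k ^ n := by
    obtain ⟨W, hTW, hW⟩ := exists_W (K := K) T
    obtain ⟨m, x, -, hx⟩ := wunit_basis W
    obtain ⟨R, hR, hR'⟩ := Pool.Agent.Q251.SG.unit_reps K n hn
    refine ⟨(R ×ˢ (Finset.univ : Finset (Fin m → Fin n))).image
      (fun t => t.1 * ∏ i, x i ^ (t.2 i : ℕ)), ?_⟩
    intro b hb
    have hb' : b ∈ BT W n := fun v hv => hb v fun h => hv (hTW h)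
    obtain ⟨w, k, hw, hwk⟩ := BT_dec hW hb'
    obtain ⟨e, u, hu, hwe⟩ := hx w hw
    obtain ⟨r, hr, t, -, hut⟩ := hR' u hu
    obtain ⟨c, k', hc⟩ := red_exp hn x e
    have hbx : b = (r * ∏ i, x i ^ (c i : ℕ)) * (t * k' * k) ^ n := by
      rw [hwk, hwe, hut, hc, mul_pow, mul_pow]
      simp only [mul_assoc, mul_left_comm (t ^ n)]
    refine ⟨_, Finset.mem_image_of_mem _ (Finset.mk_mem_product hr (Finset.mem_univ c)), ?_,
      t * k' * k, hbx⟩
    have h1 : r * ∏ i, x i ^ (c i : ℕ) = b * ((t * k' * k) ^ n)⁻¹ := eq_mul_inv_of_mul_eq hbx.symm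
    show r * ∏ i, x i ^ (c i : ℕ) ∈ BT T n
    rw [h1]
    refine mul_mem hb (inv_mem ?_)
    intro v _
    rw [prin_pow, Finsupp.smul_apply, nsmul_eq_mul]
    exact dvd_mul_right _ _
  refine ⟨hX, ?_⟩
  obtain ⟨X, hX⟩ := hX
  let C := AlgebraicClosure K
  have : NeZero ((n : ℕ) : C) := ⟨by exact_mod_cast hn.ne'⟩
  have : NeZero n := ⟨hn.ne'⟩
  obtain ⟨ζ, hζ⟩ := HasEnoughRootsOfUnity.exists_primitiveRoot C n
  have hroot : ∀ b : Kˣ, ∃ r : C, r ^ n = algebraMap K C (b : K) := fun b =>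
    IsAlgClosed.exists_pow_nat_eq _ hn
  choose ρ hρ using hroot
  let G : Finset C := insert ζ (X.image ρ)
  let K' : IntermediateField K C := IntermediateField.adjoin K (G : Set C)
  have : FiniteDimensional K K' := by
    apply IntermediateField.finiteDimensional_adjoin
    intro y _
    exact Algebra.IsIntegral.isIntegral y
  have : NumberField K' := NumberField.of_module_finite K K'
  have hmem : ∀ y ∈ G, y ∈ K' := fun y hy => IntermediateField.subset_adjoin K _ hy
  have hζm : ζ ∈ K' := hmem ζ (Finset.mem_insert_self _ _)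
  have hρm : ∀ x ∈ X, ρ x ∈ K' := fun x hx =>
    hmem _ (Finset.mem_insert_of_mem (Finset.mem_image_of_mem _ hx))
  have hr : ∀ b : Kˣ, ∃ r : K', b ∈ BT T n → r ^ n = algebraMap K K' (b : K) := by
    intro b
    by_cases hb : b ∈ BT T n
    · obtain ⟨x, hx, -, k, hk⟩ := hX b hb
      refine ⟨⟨ρ x, hρm x hx⟩ * algebraMap K K' (k : K), fun _ => ?_⟩
      have h1 : ((⟨ρ x, hρm x hx⟩ : K') ^ n) = algebraMap K K' (x : K) := by
        apply Subtype.ext
        show ρ x ^ n = _
        rw [hρ x]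
        rfl
      rw [mul_pow, h1, hk, Units.val_mul, Units.val_pow_eq_pow_val, map_mul, map_pow]
    · exact ⟨0, fun h => absurd h hb⟩
  choose r hr using hr
  refine ⟨K', inferInstance, inferInstance, inferInstance, ⟨ζ, hζm⟩, r, ?_, fun b hb => hr b hb⟩
  exact IsPrimitiveRoot.of_map_of_injective (f := K'.val) (by exact hζ) K'.val.injective

end Pool.Agent.Q65.SH
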