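import Pool.Agent.Q5.SH.Stm
import Pool.Agent.Q225.AR.Fin
import Pool.Agent.Q251.SG.QF

/-!
# Project SH, job WU: a finite set of primes generating the class group, and the `W`-units modulo `p`
-/

set_option autoImplicit false
set_option linter.unusedSectionVars false

namespace Pool.Agent.Q65.SH

open NumberField IsDedekindDomain Module Pool.Agent.Y18.LC Pool.Agent.Q5.SG Pool.Agent.Q5.SH
open Pool.Agent.Q92.AR (Dv prin Pr SupF prin_mul prin_one prin_inv prin_div prinHom)

variable {K : Type} [Field K] [NumberField K]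

theorem Pr_one : Pr K 1 = ⊤ := by
  rw [eq_top_iff]
  intro D _ v hv
  exfalso
  rw [Nat.cast_one] at hv
  exact v.isPrime.ne_top ((Ideal.eq_top_iff_one _).2 hv)

/-- finitely many primes generate the class group -/
theorem exists_W (V : Finset (HeightOneSpectrum (𝓞 K))) :
    ∃ W : Finset (HeightOneSpectrum (𝓞 K)), V ⊆ W ∧
      ∀ D : Dv K, ∃ x : Kˣ, D - prin x ∈ SupF K (W : Set (HeightOneSpectrum (𝓞 K))) := by
  classical
  have h1 := Pool.Agent.Q225.AR.fin_class (F := K) 1
  rw [Pr_one, AddSubgroup.relIndex_top_right] at h1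
  have hi : ((prinHom (F := K)).range).FiniteIndex := ⟨h1⟩
  have hf : Finite (Dv K ⧸ (prinHom (F := K)).range) := AddSubgroup.finite_quotient_of_finiteIndex
  have := Fintype.ofFinite (Dv K ⧸ (prinHom (F := K)).range)
  refine ⟨V ∪ Finset.univ.biUnion fun q : Dv K ⧸ (prinHom (F := K)).range =>
    (Quotient.out q : Dv K).support, Finset.subset_union_left, ?_⟩
  intro D
  have h2 : ((QuotientAddGroup.mk (Quotient.out (QuotientAddGroup.mk D :
    Dv K ⧸ (prinHom (F := K)).range) : Dv K) : Dv K ⧸ (prinHom (F := K)).range)) =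
    QuotientAddGroup.mk D := QuotientAddGroup.out_eq' _
  rw [QuotientAddGroup.eq] at h2
  obtain ⟨x, hx⟩ := h2
  refine ⟨x.toMul, ?_⟩
  intro v hv
  have h3 : prin x.toMul = -(Quotient.out (QuotientAddGroup.mk D :
    Dv K ⧸ (prinHom (F := K)).range) : Dv K) + D := hx
  rw [h3, sub_add_eq_sub_sub, sub_neg_eq_add, add_sub_cancel_left]
  by_contra h4
  apply hv
  rw [Finset.mem_coe, Finset.mem_union, Finset.mem_biUnion]
  exact Or.inr ⟨_, Finset.mem_univ _, Finsupp.mem_support_iff.2 h4⟩

/-- reduction of exponents modulo `p` -/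
theorem red_exp {ι : Type} [Fintype ι] {p : ℕ} (hp : 0 < p) (y : ι → Kˣ) (e : ι → ℤ) :
    ∃ c : ι → Fin p, ∃ k : Kˣ, ∏ i, y i ^ e i = (∏ i, y i ^ (c i : ℕ)) * k ^ p := by
  have hp' : (0 : ℤ) < p := by exact_mod_cast hp
  have hlt : ∀ i, (e i % p).toNat < p := fun i => by
    have := Int.emod_lt_of_pos (e i) hp'
    have := Int.emod_nonneg (e i) hp'.ne'
    omega
  refine ⟨fun i => ⟨(e i % p).toNat, hlt i⟩, ∏ i, y i ^ (e i / p), ?_⟩
  rw [← Finset.prod_pow, ← Finset.prod_mul_distrib]
  refine Finset.prod_congr rfl fun i _ => ?_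
  rw [← zpow_natCast (y i), ← zpow_natCast (y i ^ (e i / p)), ← zpow_mul, ← zpow_add]
  congr 1
  have := Int.emod_nonneg (e i) hp'.ne'
  rw [Int.toNat_of_nonneg this]
  rw [mul_comm]
  exact (Int.emod_add_mul_ediv (e i) p).symm

/-- the roots of unity are `p`-th powers -/
theorem tors_pow {p : ℕ} (hp : p.Prime) (hp2 : p ≠ 2) (hun : Unram K p) (ζ : Units.torsion K) :
    ∃ k : Units.torsion K, k ^ p = ζ := by
  have hinj : Function.Injective (powMonoidHom p : Units.torsion K →* Units.torsion K) := by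
    rw [injective_iff_map_eq_one]
    intro a ha
    have h1 : a ^ p = 1 := ha
    have h2 : (((a : (𝓞 K)ˣ) : 𝓞 K)) ^ p = 1 := by
      have h3 := congrArg (fun t : Units.torsion K => (((t : (𝓞 K)ˣ) : 𝓞 K))) h1
      simpa using h3
    have h4 := no_torsion hp hp2 hun h2
    exact Subtype.ext (Units.ext h4)
  exact Finite.surjective_of_injective hinj ζ

/-- the units modulo `p`-th powers -/
theorem unit_dec {p : ℕ} (hp : p.Prime) (hp2 : p ≠ 2) (hun : Unram K p) {u : Kˣ} (hu : u ∈ EU K) :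
    ∃ (f : Fin (Units.rank K) → ℤ) (k : Kˣ),
      u = (∏ i, (Units.map (algebraMap (𝓞 K) K).toMonoidHom (Units.fundSystem K i)) ^ f i) * k ^ p := by
  obtain ⟨e, he⟩ := mem_EU.1 hu
  obtain ⟨⟨ζ, f⟩, h1, -⟩ := Units.exist_unique_eq_mul_prod K e
  obtain ⟨k, hk⟩ := tors_pow hp hp2 hun ζ
  refine ⟨f, Units.map (algebraMap (𝓞 K) K).toMonoidHom (k : (𝓞 K)ˣ), ?_⟩
  have h2 : u = Units.map (algebraMap (𝓞 K) K).toMonoidHom e := Units.ext he.symm
  rw [h2, h1, map_mul, map_prod, ← map_pow, mul_comm]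
  congr 1
  · exact Finset.prod_congr rfl fun i _ => by rw [map_zpow]
  · congr 1
    rw [← hk]
    rfl

theorem prin_zpow (x : Kˣ) (n : ℤ) : prin (x ^ n) = n • prin x :=
  (prinHom (F := K)).map_zsmul n (Additive.ofMul x)

theorem prin_pow (x : Kˣ) (n : ℕ) : prin (x ^ n) = n • prin x :=
  (prinHom (F := K)).map_nsmul n (Additive.ofMul x)

theorem prin_prod {ι : Type} (s : Finset ι) (x : ι → Kˣ) : prin (∏ i ∈ s, x i) = ∑ i ∈ s, prin (x i) := by
  classical
  induction s using Finset.induction_on with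
  | empty => rw [Finset.prod_empty, Finset.sum_empty, prin_one]
  | insert a s ha ih => rw [Finset.prod_insert ha, Finset.sum_insert ha, prin_mul, ih]

/-- an element with trivial divisor is a unit -/
theorem EU_of_prin {x : Kˣ} (h : prin x = 0) : x ∈ EU K := by
  apply Pool.Agent.Q251.SG.EU_of_val
  intro v
  rw [Pool.Agent.Q128.AR.val_prin, h, Finsupp.zero_apply, neg_zero, WithZero.exp_zero]

/-- a basis of the `W`-units modulo units -/
theorem wunit_basis (W : Finset (HeightOneSpectrum (𝓞 K))) : ∃ (n : ℕ) (x : Fin n → Kˣ), n ≤ W.card ∧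
    ∀ w : Kˣ, (∀ v, v ∉ W → prin w v = 0) → ∃ e : Fin n → ℤ, ∃ u ∈ EU K, w = u * ∏ i, x i ^ e i := by
  classical
  let φ : Additive Kˣ →+ (W → ℤ) :=
    { toFun := fun a v => prinHom a v
      map_zero' := by
        funext v
        rw [map_zero]
        rfl
      map_add' := fun a b => by
        funext v
        rw [map_add]
        rfl }
  let U : AddSubgroup (Additive Kˣ) :=
    { carrier := {a | ∀ v, v ∉ W → prinHom a v = 0}
      zero_mem' := fun v _ => by rw [map_zero]; rfl
      add_mem' := fun {a b} ha hb v hv => by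
        rw [map_add, Finsupp.add_apply, ha v hv, hb v hv, add_zero]
      neg_mem' := fun {a} ha v hv => by
        rw [map_neg, Finsupp.neg_apply, ha v hv, neg_zero] }
  let M : Submodule ℤ (W → ℤ) := AddSubgroup.toIntSubmodule (U.map φ)
  obtain ⟨n, b⟩ := Submodule.basisOfPid (Pi.basisFun ℤ W) M
  have hn : n ≤ W.card := by
    have h1 : finrank ℤ M = n := by
      rw [Module.finrank_eq_card_basis b, Fintype.card_fin]
    have h2 : finrank ℤ M ≤ finrank ℤ (W → ℤ) := Submodule.finrank_le M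
    rw [h1, Module.finrank_fintype_fun_eq_card, Fintype.card_coe] at h2
    exact h2
  have hM : ∀ m : M, ∃ a ∈ U, φ a = (m : W → ℤ) := fun m => m.2
  choose x hxU hx using fun i => hM (b i)
  refine ⟨n, fun i => (x i).toMul, hn, ?_⟩
  intro w hw
  have hwU : Additive.ofMul w ∈ U := hw
  let m : M := ⟨φ (Additive.ofMul w), ⟨_, hwU, rfl⟩⟩
  refine ⟨fun i => b.repr m i, w / ∏ i, (x i).toMul ^ (b.repr m i), ?_, ?_⟩
  · apply EU_of_prin
    have h1 : φ (Additive.ofMul w - ∑ i, (b.repr m i) • x i) = 0 := by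
      rw [map_sub, map_sum]
      have h2 := congrArg (fun t : M => (t : W → ℤ)) (b.sum_repr m)
      have h3 : (∑ i, φ ((b.repr m i) • x i)) = φ (Additive.ofMul w) := by
        rw [← show ((m : M) : W → ℤ) = φ (Additive.ofMul w) from rfl, ← h2]
        rw [Submodule.coe_sum]
        refine Finset.sum_congr rfl fun i _ => ?_
        rw [map_zsmul, hx i]
        rfl
      rw [h3, sub_self]
    have hU : (Additive.ofMul w - ∑ i, (b.repr m i) • x i) ∈ U :=
      U.sub_mem hwU (U.sum_mem fun i _ => U.zsmul_mem (hxU i) _)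
    have h4 : prinHom (Additive.ofMul w - ∑ i, (b.repr m i) • x i) = 0 := by
      ext v
      by_cases hv : v ∈ W
      · exact congrFun h1 ⟨v, hv⟩
      · exact hU v hv
    exact h4
  · rw [div_mul_cancel]

theorem wu : Pool.Agent.Q5.SH.S_WU := by
  classical
  intro p hp hp2 K _ _ hun V
  obtain ⟨W, hVW, hW⟩ := exists_W (K := K) V
  refine ⟨W, hVW, hW, ?_⟩
  obtain ⟨n, x, hn, hx⟩ := wunit_basis W
  let y : Fin (Units.rank K) ⊕ Fin n → Kˣ := Sum.elim
    (fun i => Units.map (algebraMap (𝓞 K) K).toMonoidHom (Units.fundSystem K i)) x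
  refine ⟨Finset.univ.image fun c : Fin (Units.rank K) ⊕ Fin n → Fin p => ∏ i, y i ^ (c i : ℕ), ?_, ?_⟩
  · refine Finset.card_image_le.trans ?_
    rw [Finset.card_univ, Fintype.card_fun, Fintype.card_fin, Fintype.card_sum, Fintype.card_fin,
      Fintype.card_fin]
    exact Nat.pow_le_pow_right hp.out.pos (by omega)
  · intro b hb
    rw [mem_BT] at hb
    let D : Dv K := Finsupp.onFinset (prin b).support (fun v => if v ∈ W then 0 else prin b v / p) (by
      intro v hv
      rw [Finsupp.mem_support_iff]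
      intro h0
      apply hv
      rw [h0]
      simp)
    have hD : ∀ v, v ∉ W → (p : ℤ) * D v = prin b v := by
      intro v hv
      have h1 : D v = prin b v / p := by
        show (if v ∈ W then 0 else prin b v / p) = _
        rw [if_neg hv]
      rw [h1]
      exact Int.mul_ediv_cancel' (hb v hv)
    obtain ⟨k, hk⟩ := hW D
    have hw : ∀ v, v ∉ W → prin (b / k ^ p) v = 0 := by
      intro v hv
      have h2 : (D - prin k) v = 0 := hk v (by rwa [Finset.mem_coe])
      rw [Finsupp.sub_apply] at h2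
      rw [prin_div, prin_pow, Finsupp.sub_apply, Finsupp.smul_apply, ← hD v hv, nsmul_eq_mul]
      rw [← mul_sub]
      have h3 : ((p : ℕ) : ℤ) * (D v - prin k v) = 0 := by rw [h2, mul_zero]
      exact h3
    obtain ⟨e, u, hu, hwe⟩ := hx _ hw
    obtain ⟨f, k', hf⟩ := unit_dec hp.out hp2 hun hu
    obtain ⟨c, k'', hc⟩ := red_exp hp.out.pos y (Sum.elim f e)
    refine ⟨_, Finset.mem_image_of_mem _ (Finset.mem_univ c), k'' * k' * k, ?_⟩
    rw [Fintype.prod_sum_type] at hc
    have h5 : b = (b / k ^ p) * k ^ p := by rw [div_mul_cancel]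
    rw [h5, hwe, hf, mul_pow, mul_pow]
    have h6 : (∏ i, (Units.map (algebraMap (𝓞 K) K).toMonoidHom (Units.fundSystem K i)) ^ f i) *
        ∏ i, x i ^ e i = (∏ i, y i ^ (c i : ℕ)) * k'' ^ p := hc
    calc _ = ((∏ i, (Units.map (algebraMap (𝓞 K) K).toMonoidHom (Units.fundSystem K i)) ^ f i) *
        ∏ i, x i ^ e i) * k' ^ p * k ^ p := by
          rw [mul_right_comm (∏ i, (Units.map (algebraMap (𝓞 K) K).toMonoidHom
            (Units.fundSystem K i)) ^ f i)]
      _ = _ := by
          rw [h6]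
          simp only [mul_assoc]

end Pool.Agent.Q65.SH
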